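import Mathlib

/-! Atoms of linear sublattices of `ι → ℝ`. -/

open Module

namespace H42.EV

variable {ι : Type*} [Fintype ι]

/-- the atom at `i`. -/
theorem exists_atom (V : Submodule ℝ (ι → ℝ)) (hV : ∀ c ∈ V, (fun i => max (c i) 0) ∈ V) {i : ι}
    (hi : ∃ c ∈ V, c i ≠ 0) :
    ∃ b ∈ V, b i = 1 ∧ (∀ l, 0 ≤ b l) ∧ ∀ l, b l ≠ 0 → ∀ c ∈ V, c l = b l * c i := by
  classical
  let P : (ι → ℝ) → Prop := fun b => b ∈ V ∧ b i = 1 ∧ ∀ l, 0 ≤ b l
  let s : (ι → ℝ) → ℕ := fun b => (Finset.univ.filter fun l => b l ≠ 0).card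
  have hne : ∃ b, P b := by
    obtain ⟨c, hc, hci⟩ := hi
    -- choose the sign
    obtain ⟨e, he, hei⟩ : ∃ e ∈ V, 0 < e i := by
      rcases lt_or_gt_of_ne hci with h | h
      · exact ⟨-c, V.neg_mem hc, by simpa using h⟩
      · exact ⟨c, hc, h⟩
    refine ⟨(e i)⁻¹ • (fun l => max (e l) 0), V.smul_mem _ (hV e he), ?_, ?_⟩
    · simp only [Pi.smul_apply, smul_eq_mul, max_eq_left hei.le]
      exact inv_mul_cancel₀ hei.ne'
    · intro l
      simp only [Pi.smul_apply, smul_eq_mul]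
      exact mul_nonneg (inv_nonneg.2 hei.le) (le_max_right _ _)
  obtain ⟨b, hb, hmin⟩ := (measure s).wf.has_min {b | P b} hne
  obtain ⟨hbV, hbi, hb0⟩ := hb
  refine ⟨b, hbV, hbi, hb0, fun l hl c hc => ?_⟩
  by_contra hcon
  let e : ι → ℝ := c - c i • b
  have he : e ∈ V := V.sub_mem hc (V.smul_mem _ hbV)
  have hei : e i = 0 := by
    simp only [e, Pi.sub_apply, Pi.smul_apply, smul_eq_mul, hbi]; ring
  have hel : e l ≠ 0 := by
    simp only [e, Pi.sub_apply, Pi.smul_apply, smul_eq_mul]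
    intro h
    apply hcon
    linarith
  obtain ⟨d, hd, hdi, hdl, hd0⟩ : ∃ d ∈ V, d i = 0 ∧ 0 < d l ∧ ∀ m, 0 ≤ d m := by
    rcases lt_or_gt_of_ne hel with h | h
    · refine ⟨fun m => max ((-e) m) 0, hV _ (V.neg_mem he), ?_, ?_, fun m => le_max_right _ _⟩
      · simp [hei]
      · simp only [Pi.neg_apply]
        exact lt_max_of_lt_left (by linarith)
    · refine ⟨fun m => max (e m) 0, hV _ he, ?_, ?_, fun m => le_max_right _ _⟩
      · simp [hei]
      · exact lt_max_of_lt_left h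
  have hbl : 0 < b l := lt_of_le_of_ne (hb0 l) (Ne.symm hl)
  let t : ℝ := b l / d l
  have ht : 0 < t := div_pos hbl hdl
  let b' : ι → ℝ := fun m => max ((b - t • d) m) 0
  have hb'V : b' ∈ V := hV _ (V.sub_mem hbV (V.smul_mem _ hd))
  have hb'i : b' i = 1 := by
    simp [b', hdi, hbi]
  have hP' : P b' := ⟨hb'V, hb'i, fun m => le_max_right _ _⟩
  have hsub : (Finset.univ.filter fun m => b' m ≠ 0) ⊂ (Finset.univ.filter fun m => b m ≠ 0) := by
    rw [Finset.ssubset_iff_of_subset]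
    · refine ⟨l, by simp [hl], ?_⟩
      simp only [Finset.mem_filter, Finset.mem_univ, true_and, not_not, b', Pi.sub_apply,
        Pi.smul_apply, smul_eq_mul, t]
      rw [div_mul_cancel₀ _ hdl.ne', sub_self, max_self]
    · intro m hm
      simp only [Finset.mem_filter, Finset.mem_univ, true_and] at hm ⊢
      intro h0
      apply hm
      simp only [b', Pi.sub_apply, Pi.smul_apply, smul_eq_mul, h0, zero_sub]
      exact max_eq_right (by have := mul_nonneg ht.le (hd0 m); linarith)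
  exact hmin b' hP' (Finset.card_lt_card hsub)

end H42.EV
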